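import Pool.Agent.helper22.WC.Spec
import Pool.Agent.helper11.DC.IRF

/-!
# Project wc, row SKC: the formula of Frobenius and Mednykh with cosets
-/

set_option autoImplicit false

namespace Pool.Agent.WC

open Pool.Agent.helper58.DC Pool.Agent.DI Pool.Agent.DR

section

variable {G E A : Type} [Group G] [Group E] [Group A]

/-- the tuples with product of commutators `h` -/
abbrev SKC_T (X : Extension G E A) {n : ℕ} (a : Fin n → A) (h : G) : Type :=
  {z : (Fin n → E) × (Fin n → G) // (∀ i, X.proj (z.1 i) = a i) ∧ cprod X z.1 z.2 = X.inc h}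

/-- the pairs with commutator `h` -/
abbrev SKC_W (X : Extension G E A) (e : E) (h : G) : Type :=
  {z : E × G // X.proj z.1 = X.proj e ∧ z.1 * X.inc z.2 * z.1⁻¹ * (X.inc z.2)⁻¹ = X.inc h}

theorem SKC_cprod (X : Extension G E A) {n : ℕ} (x : Fin (n + 1) → E) (y : Fin (n + 1) → G) :
    cprod X x y = x 0 * X.inc (y 0) * (x 0)⁻¹ * (X.inc (y 0))⁻¹ *
      cprod X (fun i => x i.succ) (fun i => y i.succ) := by
  unfold cprod
  rw [List.ofFn_succ, List.prod_cons]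

/-- the bijection -/
def SKC_f (X : Extension G E A) (e : E) {n : ℕ} (a : Fin (n + 1) → A) (he : X.proj e = a 0) (h : G)
    (s : Σ g : G, SKC_W X e g × SKC_T X (fun i => a i.succ) (g⁻¹ * h)) : SKC_T X a h :=
  ⟨(Fin.cons s.2.1.1.1 s.2.2.1.1, Fin.cons s.2.1.1.2 s.2.2.1.2), by
    obtain ⟨g, ⟨⟨e', y⟩, h1, h2⟩, ⟨⟨x', y'⟩, h3, h4⟩⟩ := s
    refine ⟨fun i => ?_, ?_⟩
    · refine Fin.cases ?_ (fun j => ?_) i
      · exact h1.trans he
      · exact h3 j
    · rw [SKC_cprod]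
      simp only [Fin.cons_zero, Fin.cons_succ]
      have h2' : e' * X.inc y * e'⁻¹ * (X.inc y)⁻¹ = X.inc g := h2
      have h4' : cprod X x' y' = X.inc (g⁻¹ * h) := h4
      rw [h2', h4', ← map_mul, mul_inv_cancel_left]⟩

theorem SKC_bij (X : Extension G E A) (e : E) {n : ℕ} (a : Fin (n + 1) → A) (he : X.proj e = a 0)
    (h : G) : Function.Bijective (SKC_f X e a he h) := by
  constructor
  · rintro ⟨g, ⟨⟨e', y⟩, h1, h2⟩, ⟨⟨x', y'⟩, h3, h4⟩⟩ ⟨k, ⟨⟨e1, y1⟩, h5, h6⟩, ⟨⟨x2, y2⟩, h7, h8⟩⟩ heq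
    have heq' := congrArg Subtype.val heq
    simp only [SKC_f, Prod.mk.injEq] at heq'
    obtain ⟨ha, hb⟩ := heq'
    obtain ⟨ha1, ha2⟩ := Fin.cons_inj.1 ha
    obtain ⟨hb1, hb2⟩ := Fin.cons_inj.1 hb
    subst ha1 ha2 hb1 hb2
    have hg : g = k := X.inc_injective (h2.symm.trans h6)
    subst hg
    rfl
  · rintro ⟨⟨x, y⟩, h1, h2⟩
    have h3 : x 0 * X.inc (y 0) * (x 0)⁻¹ * (X.inc (y 0))⁻¹ =
        X.inc (X.act (x 0) (y 0) * (y 0)⁻¹) := by
      rw [map_mul, X.act_spec, map_inv]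
    refine ⟨⟨X.act (x 0) (y 0) * (y 0)⁻¹, ⟨(x 0, y 0), (h1 0).trans he.symm, h3⟩,
      ⟨(fun i => x i.succ, fun i => y i.succ), fun i => h1 i.succ, ?_⟩⟩, ?_⟩
    · have h4 := SKC_cprod X x y
      have h2' : cprod X x y = X.inc h := h2
      rw [h2', h3] at h4
      show cprod X (fun i => x i.succ) (fun i => y i.succ) = _
      rw [map_mul, map_inv, h4, inv_mul_cancel_left]
    · apply Subtype.ext
      show (Fin.cons (x 0) (fun i => x i.succ), Fin.cons (y 0) (fun i => y i.succ)) = (x, y)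
      rw [Prod.mk.injEq]
      exact ⟨Fin.cons_self_tail x, Fin.cons_self_tail y⟩

theorem SKC_card [Finite G] [Finite E] (X : Extension G E A) (e : E) {n : ℕ} (a : Fin (n + 1) → A)
    (he : X.proj e = a 0) (h : G) :
    ((Nat.card (SKC_T X a h) : ℕ) : ℂ) =
      cv (fun g => ((Nat.card (SKC_W X e g) : ℕ) : ℂ))
        (fun g => ((Nat.card (SKC_T X (fun i => a i.succ) g) : ℕ) : ℂ)) h := by
  classical
  have := Fintype.ofFinite G
  rw [← Nat.card_congr (Equiv.ofBijective _ (SKC_bij X e a he h)), Nat.card_sigma]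
  unfold cv
  rw [finsum_eq_sum_of_fintype, Nat.cast_sum]
  refine Finset.sum_congr rfl fun g _ => ?_
  rw [Nat.card_prod, Nat.cast_mul]

theorem SKC_zero (X : Extension G E A) (a : Fin 0 → A) (h : G) [Decidable (h = 1)] :
    ((Nat.card (SKC_T X a h) : ℕ) : ℂ) = if h = 1 then 1 else 0 := by
  by_cases hh : h = 1
  · subst hh
    rw [if_pos rfl]
    have : Unique (SKC_T X a 1) :=
      { default := ⟨(Fin.elim0, Fin.elim0), fun i => i.elim0, by
          unfold cprod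
          rw [map_one]
          simp⟩
        uniq := fun z => Subtype.ext (Prod.ext (Subsingleton.elim _ _) (Subsingleton.elim _ _)) }
    rw [Nat.card_unique, Nat.cast_one]
  · rw [if_neg hh]
    have : IsEmpty (SKC_T X a h) := by
      refine ⟨fun z => hh ?_⟩
      have h1 := z.2.2
      unfold cprod at h1
      rw [List.ofFn_zero, List.prod_nil] at h1
      apply X.inc_injective
      rw [map_one]
      exact h1.symm
    rw [Nat.card_of_isEmpty, Nat.cast_zero]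

open Classical in
theorem SKC_main (hSKA : SKA_stmt) (hC4 : Pool.Agent.DI.C4_stmt) [Finite G] [Finite E]
    (X : Extension G E A) (n : ℕ) : ∀ a : Fin n → A,
    IsZO (fun h => ((Nat.card (SKC_T X a h) : ℕ) : ℂ)) ∧ ∀ ψ ∈ Irr G,
      cc ψ (fun h => ((Nat.card (SKC_T X a h) : ℕ) : ℂ)) =
        if (∀ e : E, X.proj e ∈ Set.range a → funMap (X.act e) ψ = ψ)
          then ((Nat.card G : ℂ) / ψ 1) ^ (2 * n) else 0 := by
  have := Fintype.ofFinite G
  induction n with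
  | zero =>
    intro a
    refine ⟨⟨fun x y => ?_, fun x => ?_⟩, fun ψ hψ => ?_⟩
    · show ((Nat.card (SKC_T X a (y * x * y⁻¹)) : ℕ) : ℂ) = ((Nat.card (SKC_T X a x) : ℕ) : ℂ)
      rw [SKC_zero, SKC_zero]
      by_cases hx : x = 1
      · subst hx
        rw [if_pos rfl, if_pos (by group)]
      · rw [if_neg hx, if_neg]
        intro h
        apply hx
        have h2 : x = y⁻¹ * (y * x * y⁻¹) * y := by group
        rw [h2, h]
        group
    · exact isIntegral_algebraMap (R := ℤ) (A := ℂ) (x := (Nat.card (SKC_T X a x) : ℤ))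
    · obtain ⟨⟨d, hd, hd1⟩, -, -⟩ := (Pool.Agent.helper11.DC.IRF G).2 ψ hψ
      have hne : ψ 1 ≠ 0 := by
        rw [hd1]
        exact_mod_cast hd.ne'
      rw [if_pos (fun e he => by
        obtain ⟨i, -⟩ := he
        exact i.elim0), mul_zero, pow_zero]
      unfold cc
      rw [finsum_eq_sum_of_fintype, Finset.sum_eq_single 1]
      · show ((Nat.card (SKC_T X a 1) : ℕ) : ℂ) * ψ 1 / ψ 1 = 1
        rw [SKC_zero, if_pos rfl, one_mul, div_self hne]
      · intro b _ hb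
        show ((Nat.card (SKC_T X a b) : ℕ) : ℂ) * ψ b = 0
        rw [SKC_zero, if_neg hb, zero_mul]
      · intro h
        exact absurd (Finset.mem_univ _) h
  | succ n ih =>
    intro a
    obtain ⟨e₀, he₀⟩ := X.proj_surjective (a 0)
    have hcv : (fun h => ((Nat.card (SKC_T X a h) : ℕ) : ℂ)) =
        cv (fun g => ((Nat.card (SKC_W X e₀ g) : ℕ) : ℂ))
          (fun g => ((Nat.card (SKC_T X (fun i => a i.succ) g) : ℕ) : ℂ)) :=
      funext fun h => SKC_card X e₀ a he₀ h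
    obtain ⟨hw1, hw2⟩ := hSKA G E A X e₀ (fun g => ((Nat.card (SKC_W X e₀ g) : ℕ) : ℂ))
      (fun h => rfl)
    obtain ⟨ih1, ih2⟩ := ih (fun i => a i.succ)
    obtain ⟨-, c2, c3⟩ := hC4 G
    rw [hcv]
    refine ⟨(c2 _ _ hw1 ih1).1, fun ψ hψ => ?_⟩
    obtain ⟨⟨d, hd, hd1⟩, -, -⟩ := (Pool.Agent.helper11.DC.IRF G).2 ψ hψ
    have hne : ψ 1 ≠ 0 := by
      rw [hd1]
      exact_mod_cast hd.ne'
    have hcG : (Nat.card G : ℂ) ≠ 0 := by
      exact_mod_cast Nat.card_pos.ne'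
    have hne2 : ((Nat.card G : ℂ) / ψ 1) ^ 2 ≠ 0 := pow_ne_zero 2 (div_ne_zero hcG hne)
    rw [c3 ψ hψ _ _ hw1, ih2 ψ hψ, hw2 ψ hψ]
    have hiff : (∀ e : E, X.proj e ∈ Set.range a → funMap (X.act e) ψ = ψ) ↔
        funMap (X.act e₀) ψ = ψ ∧ ∀ e : E, X.proj e ∈ Set.range (fun i : Fin n => a i.succ) →
          funMap (X.act e) ψ = ψ := by
      constructor
      · intro h
        refine ⟨h e₀ ⟨0, he₀.symm⟩, fun e he => ?_⟩
        obtain ⟨i, hi⟩ := he
        exact h e ⟨i.succ, hi⟩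
      · rintro ⟨h1, h2⟩ e ⟨i, hi⟩
        revert hi
        refine Fin.cases (fun hi => ?_) (fun j hi => ?_) i
        · by_contra hcon
          have h3 := (hSKA G E A X e (fun g => ((Nat.card (SKC_W X e₀ g) : ℕ) : ℂ))
            (fun h => by
              show ((Nat.card (SKC_W X e₀ h) : ℕ) : ℂ) = _
              rw [← hi, ← he₀])).2 ψ hψ
          rw [if_neg hcon, hw2 ψ hψ, if_pos h1] at h3
          exact hne2 h3
        · exact h2 e ⟨j, hi⟩
    by_cases h1 : funMap (X.act e₀) ψ = ψ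
    · rw [if_pos h1]
      by_cases h2 : ∀ e : E, X.proj e ∈ Set.range (fun i : Fin n => a i.succ) →
          funMap (X.act e) ψ = ψ
      · rw [if_pos h2, if_pos (hiff.2 ⟨h1, h2⟩), ← pow_add]
        congr 1
        ring
      · rw [if_neg h2, if_neg (fun h => h2 (hiff.1 h).2), mul_zero]
    · rw [if_neg h1, if_neg (fun h => h1 (hiff.1 h).1), zero_mul]

end

theorem SKC (hSKA : SKA_stmt) (hSKB : SKB_stmt) (hC4 : Pool.Agent.DI.C4_stmt) : SKC_stmt := by
  classical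
  intro G E A _ _ _ _ _ X m a
  obtain ⟨h1, h2⟩ := SKC_main hSKA hC4 X (m + 1) a
  have h3 := hSKB G (fun h => ((Nat.card (SKC_T X a h) : ℕ) : ℂ)) h1.1
  have hcG : (Nat.card G : ℂ) ≠ 0 := by
    exact_mod_cast Nat.card_pos.ne'
  have h4 : ((Nat.card (SKC_T X a 1) : ℕ) : ℂ) = (homL X a ⊤ : ℂ) := by
    unfold homL
    congr 1
    refine Nat.card_congr (Equiv.subtypeEquivRight fun z => ?_)
    rw [map_one]
    constructor
    · rintro ⟨h5, h6⟩
      exact ⟨h5, h6, fun i => Subgroup.mem_top _, fun i => Subgroup.mem_top _⟩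
    · rintro ⟨h5, h6, -, -⟩
      exact ⟨h5, h6⟩
  have h5 : ∑ᶠ ψ ∈ Irr G, ψ 1 ^ 2 * cc ψ (fun h => ((Nat.card (SKC_T X a h) : ℕ) : ℂ)) =
      (Nat.card G : ℂ) ^ 2 * ∑ᶠ ψ ∈ {ψ : G → ℂ | ψ ∈ Irr G ∧ ∀ e : E,
        X.proj e ∈ Set.range a → funMap (X.act e) ψ = ψ}, ((Nat.card G : ℂ) / ψ 1) ^ (2 * m) := by
    rw [mul_finsum_mem, finsum_mem_def, finsum_mem_def]
    congr 1
    funext ψ
    by_cases hψ : ψ ∈ Irr G
    · obtain ⟨⟨d, hd, hd1⟩, -, -⟩ := (Pool.Agent.helper11.DC.IRF G).2 ψ hψ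
      have hne : ψ 1 ≠ 0 := by
        rw [hd1]
        exact_mod_cast hd.ne'
      rw [Set.indicator_of_mem hψ, h2 ψ hψ]
      by_cases hp : ∀ e : E, X.proj e ∈ Set.range a → funMap (X.act e) ψ = ψ
      · rw [if_pos hp, Set.indicator_of_mem (show ψ ∈ {ψ : G → ℂ | ψ ∈ Irr G ∧ ∀ e : E,
          X.proj e ∈ Set.range a → funMap (X.act e) ψ = ψ} from ⟨hψ, hp⟩)]
        rw [mul_add, pow_add, mul_one]
        field_simp
      · rw [if_neg hp, Set.indicator_of_notMem (fun h => hp h.2), mul_zero]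
    · rw [Set.indicator_of_notMem hψ, Set.indicator_of_notMem (fun h => hψ h.1)]
  rw [h5] at h3
  have h3' : (Nat.card G : ℂ) * ((Nat.card (SKC_T X a 1) : ℕ) : ℂ) = (Nat.card G : ℂ) ^ 2 *
      ∑ᶠ ψ ∈ {ψ : G → ℂ | ψ ∈ Irr G ∧ ∀ e : E,
        X.proj e ∈ Set.range a → funMap (X.act e) ψ = ψ}, ((Nat.card G : ℂ) / ψ 1) ^ (2 * m) := h3
  rw [h4, pow_two, mul_assoc] at h3'
  exact mul_left_cancel₀ hcG h3'

end Pool.Agent.WC
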